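import Mathlib
import Pool.Agent.Helper723.ZO3

set_option autoImplicit false

open Polynomial

namespace Pool.Agent.Results.MP_9bb6b5_al.TotallyReal

/-- The assertion of Q1 holds whenever all coefficients of `P` are totally real (every complex
root of the minimal polynomial over `ℚ` of every coefficient of `P` is real). -/
theorem result :
    ∀ P Q : ℝ[X], P.Monic → Q.Monic →
      (∀ i, 0 ≤ P.coeff i) → (∀ i, 0 ≤ Q.coeff i) →
      (∀ k, (P * Q).coeff k = 0 ∨ (P * Q).coeff k = 1) →
      (∀ i, ∀ z : ℂ, aeval z (minpoly ℚ (P.coeff i)) = 0 → z.im = 0) →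
      (∀ i, P.coeff i = 0 ∨ P.coeff i = 1) ∧ (∀ i, Q.coeff i = 0 ∨ Q.coeff i = 1) :=
  fun P Q hP hQ hp hq hR htr =>
    Pool.Agent.Helper723.ZeroOne.main P Q hP hQ hp hq hR htr

end Pool.Agent.Results.MP_9bb6b5_al.TotallyReal
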